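import Mathlib

/-!
Finitely generated subrings of `ℂ` have infinitely many primes which are not invertible.
-/

namespace Pool.Agent.Helper38.Mixed

theorem isJacobsonRing_int : IsJacobsonRing ℤ := by
  rw [isJacobsonRing_iff_prime_eq]
  intro P hP
  by_cases h : P = ⊥
  · subst h
    rw [eq_bot_iff]
    intro x hx
    rw [Ideal.mem_jacobson_bot] at hx
    have h1 := Int.isUnit_iff.mp (hx 1)
    have h2 := Int.isUnit_iff.mp (hx 2)
    rw [Ideal.mem_bot]
    omega
  · have hmax : P.IsMaximal := hP.isMaximal h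
    apply le_antisymm
    · rw [Ideal.jacobson]
      exact sInf_le ⟨le_refl _, hmax⟩
    · exact Ideal.le_jacobson

theorem infinite_nonunit (S : Finset ℂ) :
    {p : ℕ | p.Prime ∧ ¬ IsUnit ((p : ℕ) : Subring.closure (S : Set ℂ))}.Infinite := by
  classical
  intro hfin
  let N : ℕ := ∏ p ∈ hfin.toFinset, p
  have hN : N ≠ 0 := by
    apply Finset.prod_ne_zero_iff.mpr
    intro p hp
    rw [Set.Finite.mem_toFinset] at hp
    exact hp.1.ne_zero
  have hNC : (N : ℂ) ≠ 0 := by exact_mod_cast hN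
  let T : Finset ℂ := insert ((N : ℂ)⁻¹) S
  let B : Subalgebra ℤ ℂ := Algebra.adjoin ℤ (T : Set ℂ)
  have hle : ∀ x ∈ Subring.closure (S : Set ℂ), x ∈ B := by
    intro x hx
    have h1 : Subring.closure (S : Set ℂ) ≤ B.toSubring := by
      rw [Subring.closure_le]
      intro y hy
      exact Algebra.subset_adjoin (by
        rw [Finset.mem_coe]
        exact Finset.mem_insert_of_mem hy)
    exact h1 hx
  have hunit : ∀ p : ℕ, p.Prime → IsUnit ((p : ℕ) : B) := by
    intro p hp
    by_cases h : IsUnit ((p : ℕ) : Subring.closure (S : Set ℂ))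
    · obtain ⟨y, hy⟩ := h.exists_right_inv
      refine IsUnit.of_mul_eq_one (⟨(y : ℂ), hle _ y.2⟩ : B) ?_
      apply Subtype.ext
      have h1 := congrArg Subtype.val hy
      simpa using h1
    · have h1 : p ∈ hfin.toFinset := by
        rw [Set.Finite.mem_toFinset]
        exact ⟨hp, h⟩
      obtain ⟨k, hk⟩ := Finset.dvd_prod_of_mem (fun p : ℕ => p) h1
      have hk' : N = p * k := hk
      have h2 : ((N : ℂ)⁻¹) ∈ B := Algebra.subset_adjoin (by
        rw [Finset.mem_coe]
        exact Finset.mem_insert_self _ _)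
      refine IsUnit.of_mul_eq_one ((k : B) * (⟨_, h2⟩ : B)) ?_
      apply Subtype.ext
      have h3 : (N : ℂ) = p * k := by exact_mod_cast hk'
      have h4 : ((((p : ℕ) : B) * ((k : B) * (⟨_, h2⟩ : B)) : B) : ℂ) =
          (p : ℂ) * ((k : ℂ) * (N : ℂ)⁻¹) := by
        push_cast
        rfl
      rw [h4, ← mul_assoc, ← h3, mul_inv_cancel₀ hNC]
      rfl
  have hfg : Algebra.FiniteType ℤ B :=
    (Subalgebra.fg_iff_finiteType B).mp ⟨T, rfl⟩
  obtain ⟨m, hm⟩ := Ideal.exists_maximal B
  let : Field (B ⧸ m) := Ideal.Quotient.field m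
  have := isJacobsonRing_int
  have hfg' : Algebra.FiniteType ℤ (B ⧸ m) :=
    Algebra.FiniteType.of_surjective (Ideal.Quotient.mkₐ ℤ m) Ideal.Quotient.mk_surjective
  have hfin' : Module.Finite ℤ (B ⧸ m) := finite_of_finite_type_of_isJacobsonRing ℤ (B ⧸ m)
  have hne : ∀ p : ℕ, p.Prime → ((p : ℕ) : B ⧸ m) ≠ 0 := by
    intro p hp h
    have h1 := (hunit p hp).map (Ideal.Quotient.mk m)
    rw [map_natCast, h] at h1
    exact not_isUnit_zero h1
  have hchar : CharZero (B ⧸ m) := by
    obtain ⟨q, hq⟩ := CharP.exists (B ⧸ m)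
    rcases CharP.char_is_prime_or_zero (B ⧸ m) q with h | h
    · exact absurd (CharP.cast_eq_zero (B ⧸ m) q) (hne q h)
    · subst h
      exact CharP.charP_to_charZero _
  have h1 := isField_of_isIntegral_of_isField (R := ℤ) (S := B ⧸ m)
    (RingHom.injective_int (algebraMap ℤ (B ⧸ m))) (Field.toIsField _)
  exact Int.not_isField h1

end Pool.Agent.Helper38.Mixed
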